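import Mathlib
import Pool.Agent.H688R2.Cnt.Apply

namespace H688R2.Cnt

open Equiv H688R2.Gap

/-- **Dichotomy for symmetric extended Frege refutations with gates that count modulo `m`** (any
`m`) of the onto functional pigeonhole principle.
1. If `N` and `n` look the same to all binomial coefficients `N.choose j` modulo `m` with `j ≤ k`,
   then every refutation of the principle for `N = |α| + |B|` pigeons and `n` holes that is
   invariant under the permutations of the `|α|` pigeons in `α` has a formula, or a wide inference,
   with more than `|α| ^ (k / 2)` images.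
2. If `N.choose j` and `n.choose j` are different modulo `m`, then for `N` pigeons there is an
   invariant refutation with at most `12 * ((N + 1) * (n + 1)) ^ j` formulas, all of which, and all
   the wide inferences, have at most `N ^ j` images; its lines are sets of at most `j + 1` signed
   formulas and its narrow inferences have at most four ingredients. -/
theorem _root_.Pool.Agent.Results.MP_576eff_lc.CountingDichotomy.result (m n : ℕ) :
    (∀ (α B Q : Type) (_ : Fintype α) (_ : Fintype B) (_ : Fintype Q) (_ : MulAction (Perm α) Q)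
      (F : MDag m (Atom (holes n) (α ⊕ B)) Q) (k w c s : ℕ), F.Invariant →
      n ≤ Fintype.card α + Fintype.card B →
      (∀ j, 1 ≤ j → j ≤ k →
        (Fintype.card α + Fintype.card B).choose j ≡ n.choose j [MOD m]) →
      1 ≤ k →
      16 * (k + 1) * (k + 1) * (Nat.log 2 (Fintype.card α) + 1) ≤ Fintype.card α →
      Fintype.card B + (c + 1) * (w + 1) * (k + 2) + 3 * k + 2 ≤ n →
      (∀ q : Q, Nat.card (MulAction.orbit (Perm α) q) ≤ s) →
      F.Refutes (ontoFphp n) w c s →
      Fintype.card α ^ k < s ^ 2) ∧
    (∀ (α : Type) (_ : Fintype α) (j : ℕ), 1 ≤ j → 0 < Fintype.card α → 0 < n →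
      ¬ (Fintype.card α).choose j ≡ n.choose j [MOD m] →
      ∃ (Q : Type) (_ : Fintype Q) (_ : MulAction (Perm α) Q)
        (F : MDag m (Atom (holes n) (α ⊕ Empty)) Q), F.Invariant ∧
        Fintype.card Q ≤ 12 * ((Fintype.card α + 1) * (n + 1)) ^ j ∧
        (∀ q : Q, Nat.card (MulAction.orbit (Perm α) q) ≤ Fintype.card α ^ j) ∧
        F.Refutes (ontoFphp n) (j + 1) 4 (Fintype.card α ^ j)) := by
  constructor
  · intro α B Q _ _ _ _ F k w c s hF hn hm hk hK hB hQ hR
    by_contra hs
    push Not at hs
    exact onto_lower hk hn hm hK hB F hF hs hQ hR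
  · intro α _ j hj hα hn hne
    obtain ⟨h1, h2, h3, h4⟩ := onto_upper (m := m) hj hα hn hne
    exact ⟨G α n j, inferInstance, inferInstance, dag m α n j, h1, h2, h3, h4⟩

end H688R2.Cnt
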