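import Mathlib
import Pool.Agent.H542R2.PMNum
import Pool.Agent.H542R2.PMFinal

/-!
Space versus length for refutations whose lines are arbitrary functions of polynomial description
size.
-/

namespace Pool.Agent.Results.MP_576eff_lc.SpaceVersusLength

/-- A clause over `N` variables: a finite set of literals; the literal `(x, s)` says that the
variable `x` has the value `s`. -/
abbrev Clause (N : ℕ) := Finset (Fin N × Bool)

/-- The assignment `z` satisfies the clause. -/
def Clause.Holds {N : ℕ} (z : Fin N → Bool) (c : Clause N) : Prop := ∃ l ∈ c, z l.1 = l.2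

/-- A refutation of the CNF `F` of length `S` and line space `s`: a sequence of `S + 1` memory
configurations, each of them a set of at most `s` lines from the set `A` of allowed lines.  The
first configuration is empty; all lines of the next configuration are semantically implied by the
lines of the present one together with at most `a` clauses of `F`; the last configuration is
unsatisfiable. -/
structure Refutation {N : ℕ} (F : Finset (Clause N)) (A : Finset ((Fin N → Bool) → Bool))
    (a s S : ℕ) where
  conf : ℕ → Finset ((Fin N → Bool) → Bool)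
  lines : ∀ t ≤ S, conf t ⊆ A
  space : ∀ t ≤ S, (conf t).card ≤ s
  init : conf 0 = ∅
  step : ∀ t < S, ∃ C ⊆ F, C.card ≤ a ∧
    ∀ z, (∀ f ∈ conf t, f z = true) → (∀ c ∈ C, c.Holds z) → ∀ f ∈ conf (t + 1), f z = true
  final : ∀ z, ∃ f ∈ conf S, f z = false

open H542PM Finset

open Classical in
/-- conjunctions of at most `s` functions from `A` -/
noncomputable def conj {N : ℕ} (A : Finset ((Fin N → Bool) → Bool)) (s : ℕ) :
    Finset ((Fin N → Bool) → Bool) :=
  (Fintype.piFinset fun _ : Fin s => insertNone A).image fun g z =>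
    decide (∀ i, ∀ f, g i = some f → f z = true)

theorem card_conj {N : ℕ} (A : Finset ((Fin N → Bool) → Bool)) (s : ℕ) :
    (conj A s).card ≤ (A.card + 1) ^ s := by
  classical
  unfold conj
  refine card_image_le.trans (le_of_eq ?_)
  rw [Fintype.card_piFinset]
  simp

open Classical in
theorem mem_conj {N : ℕ} {A : Finset ((Fin N → Bool) → Bool)} {s : ℕ}
    {D : Finset ((Fin N → Bool) → Bool)} (hD : D ⊆ A) (hs : D.card ≤ s) :
    (fun z => decide (∀ f ∈ D, f z = true)) ∈ conj A s := by
  unfold conj
  rw [mem_image]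
  refine ⟨fun i => D.toList[(i : ℕ)]?, ?_, ?_⟩
  · rw [Fintype.mem_piFinset]
    intro i
    rw [mem_insertNone]
    intro f hf
    exact hD (mem_toList.mp (List.mem_of_getElem? (Option.mem_def.mp hf)))
  · funext z
    congr 1
    rw [eq_iff_iff]
    constructor
    · intro h f hf
      obtain ⟨m, hm, hmf⟩ := List.getElem_of_mem (mem_toList.mpr hf)
      apply h ⟨m, ?_⟩ f
      · show D.toList[m]? = some f
        rw [List.getElem?_eq_getElem hm, hmf]
      · rw [length_toList] at hm
        omega
    · intro h i f hf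
      exact h f (mem_toList.mp (List.mem_of_getElem? hf))

/-- There is `c > 0` such that for every `k` the following holds for all large `N`.  Let `A` be
any set of at most `2 ^ (N ^ k)` Boolean functions of `N` variables.  Then there is an
unsatisfiable CNF with `N` variables, polynomially many clauses and clauses of width `O(log N)`
all of whose refutations with lines from `A`, line space at most `N ^ k` and at most `N ^ k`
clauses used per step have length at least `2 ^ (c N)`. -/
theorem result : ∃ c : ℝ, 0 < c ∧ ∀ k : ℕ, ∃ k' N0 : ℕ, ∀ N ≥ N0,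
    ∀ A : Finset ((Fin N → Bool) → Bool), A.card ≤ 2 ^ (N ^ k) →
      ∃ F : Finset (Clause N), F.card ≤ N ^ k' ∧ (∀ cl ∈ F, cl.card ≤ k' * Nat.log 2 N) ∧
        (∀ z, ∃ cl ∈ F, ¬ cl.Holds z) ∧
        ∀ a s S : ℕ, a ≤ N ^ k → s ≤ N ^ k → Nonempty (Refutation F A a s S) →
          (2 : ℝ) ^ (c * N) ≤ S := by
  classical
  refine ⟨1 / 10000000 / 2, by norm_num, fun k => ?_⟩
  obtain ⟨k', N0, hN0⟩ := exists_good (2 * k + 1)
  obtain ⟨N1, hN1⟩ := ev_exp (k + 2)
  refine ⟨k', max (max N0 N1) 4, fun N hN A hA => ?_⟩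
  have hNN0 : N0 ≤ N := (le_max_left _ _).trans ((le_max_left _ _).trans hN)
  have hNN1 : N1 ≤ N := (le_max_right _ _).trans ((le_max_left _ _).trans hN)
  have hN4 : 4 ≤ N := (le_max_right _ _).trans hN
  clear hN
  have hNk : 1 ≤ N ^ k := Nat.one_le_pow _ _ (by omega)
  have hcard : (conj A (N ^ k)).card ≤ 2 ^ (N ^ (2 * k + 1)) := by
    refine (card_conj A (N ^ k)).trans ?_
    have h1 : A.card + 1 ≤ 2 ^ (N ^ k + 1) := by
      rw [pow_succ]
      have : 1 ≤ 2 ^ (N ^ k) := Nat.one_le_two_pow
      omega
    calc (A.card + 1) ^ N ^ k ≤ (2 ^ (N ^ k + 1)) ^ N ^ k := Nat.pow_le_pow_left h1 _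
      _ = 2 ^ ((N ^ k + 1) * N ^ k) := by rw [← pow_mul]
      _ ≤ 2 ^ (N ^ (2 * k + 1)) := by
          apply Nat.pow_le_pow_right (by norm_num)
          have h2 : N ^ (2 * k + 1) = (N ^ k * N) * N ^ k := by ring
          rw [h2]
          apply Nat.mul_le_mul_right
          nlinarith
  obtain ⟨F, μ, hF1, hF2, hF3, hg⟩ := hN0 N hNN0 (conj A (N ^ k)) hcard
  have hcp : ∀ (cl : Clause N) (z : Fin N → Bool), cp cl z = true ↔ cl.Holds z :=
    fun cl z => cp_eq_true
  refine ⟨F, hF1, hF2, ?_, ?_⟩
  · intro z
    obtain ⟨cl, hcl, hz⟩ := hF3 z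
    refine ⟨cl, hcl, fun h => ?_⟩
    rw [(hcp cl z).mpr h] at hz
    exact absurd hz (by simp)
  · rintro a s S ha hs ⟨⟨conf, hlines, hspace, hinit, hstep, hfinal⟩⟩
    have hq : N ^ k + 4 ≤ N ^ (2 * k + 1 + 2) := by
      have h1 : N ^ (2 * k + 1 + 2) = N ^ k * (N ^ k * N ^ 3) := by ring
      rw [h1]
      have h2 : 8 ≤ N ^ k * N ^ 3 := by
        have h3 : 4 ^ 3 ≤ N ^ 3 := Nat.pow_le_pow_left hN4 3
        nlinarith
      nlinarith
    have hlin := linear_bound hg (N ^ k) S hq
      (fun t z => decide (∀ f ∈ conf t, f z = true))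
      (fun t ht => mem_conj (hlines t ht) ((hspace t ht).trans hs)) (by
        intro z
        simp [hinit]) (by
        intro t ht
        obtain ⟨C, hCF, hCa, himp⟩ := hstep t ht
        refine ⟨C.toList.map cp, ?_, ?_, ?_⟩
        · rw [List.length_map, length_toList]
          exact hCa.trans ha
        · intro c hc
          obtain ⟨cl, hcl, rfl⟩ := List.mem_map.mp hc
          exact ⟨cl, hCF (mem_toList.mp hcl), rfl⟩
        · intro z hz hC
          have hz' := of_decide_eq_true hz
          apply decide_eq_true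
          apply himp z hz'
          intro cl hcl
          exact (hcp cl z).mp (hC (cp cl) (List.mem_map.mpr ⟨cl, mem_toList.mpr hcl, rfl⟩)))
      (by
        intro z
        obtain ⟨f, hf, hfz⟩ := hfinal z
        apply decide_eq_false
        intro h
        rw [h f hf] at hfz
        exact absurd hfz (by simp))
    have h1 : (1 : ℝ) / 10000000 / 2 * N = (N : ℝ) / 10000000 / 2 := by ring
    rw [h1]
    apply num_lin (X := ((N ^ k : ℕ) : ℝ) + 1) (by positivity) (by positivity) _ hlin
    refine le_trans ?_ (hN1 N hNN1)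
    have hNR : (4 : ℝ) ≤ N := by exact_mod_cast hN4
    have h2 : (1 : ℝ) ≤ (N : ℝ) ^ k := one_le_pow₀ (by linarith)
    have h3 : (N : ℝ) ^ (k + 2) = (N : ℝ) ^ k * (N * N) := by ring
    rw [h3]
    push_cast
    have h4 : (16 : ℝ) ≤ N * N := by nlinarith
    have h5 : (N : ℝ) ^ k * 16 ≤ (N : ℝ) ^ k * (N * N) :=
      mul_le_mul_of_nonneg_left h4 (by linarith)
    linarith

end Pool.Agent.Results.MP_576eff_lc.SpaceVersusLength
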