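import Pool.Agent.H694R2.SymGapEasy

set_option autoImplicit false

/-!
# MP_576eff_lc: a complexity gap theorem for symmetric Frege systems

Definitions (beginning of `Pool/Agent/H694R2/SymGap.lean`):

* `Circuit V 𝒢`: acyclic circuits over the variables `V` with gate set `𝒢`: negation gates and
  disjunction gates of unbounded fan-in, any depth, with sharing; `C.Symmetric A`: the circuit is
  invariant under the permutations of `A`, which act on the variables and on the gates;
* `Step`, `Der C 𝒜 b Γ`: the sequent `Γ` has a (dag-like) derivation from the clauses `𝒜` in the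
  sequent calculus LK (unbounded `∨`; clauses, which may be wide, are used as rules) by sequents of
  at most `b` nodes of `C`;
* `Atom ar A`: the atoms `R (a_1, …, a_r)` over `A`; `Schema ar`: first-order axioms: for all
  distinct `x_1, …, x_m` one of the literals `fixed` holds, or there are distinct `y_1, …, y_e`,
  different from the `x_i`, such that one of the literals `wide` holds; `clauses Φ A`: their
  propositional translation over the set `A` (one clause for every choice of the `x_i`);
  `Models I Φ`: the structure in which exactly the atoms in `I` hold satisfies the axioms `Φ`.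

`emptyCircuit V` (`Pool/Agent/H694R2/SymGapEasy.lean`) is the circuit without gates.
-/

namespace Pool.Agent.Results.MP_576eff_lc.SymmetricGap

open Equiv Pool.Agent.H694R2.SymGap

/-- The axioms `Φ` have an infinite model. -/
def HasInfiniteModel {R : Type} {ar : R → ℕ} (Φ : Set (Schema ar)) : Prop :=
  ∃ (M : Type) (_ : Infinite M) (I : Atom ar M → Prop), Models I Φ

/-- **Gap theorem.** Let `Φ` be first-order axioms over a finite relational signature, with a common
bound `c` for the arities and the numbers of variables of the axioms.

If `Φ` has an infinite model then every circuit that is invariant under the permutations of the `n`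
points and carries a refutation of `Φ` over `n` points with sequents of at most `b` nodes has at
least `((n choose k) / 4)^(1/3)` gates, for all `k > c` with `(b + 3) k ≤ n`.

If `Φ` has no infinite model then there is `b` such that for all large `n` the axioms `Φ` over `n`
points have a refutation without any gates, by sequents of at most `b` literals. -/
theorem result {R : Type} [Fintype R] [DecidableEq R] (ar : R → ℕ) (Φ : Set (Schema ar)) (c : ℕ)
    (har : ∀ r, ar r ≤ c) (hΦ : ∀ θ ∈ Φ, θ.m + θ.e ≤ c) :
    (HasInfiniteModel Φ → ∀ b k n : ℕ, c < k → (b + 3) * k ≤ n →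
      ∀ (𝒢 : Type) [Fintype 𝒢] [DecidableEq 𝒢] [MulAction (Perm (Fin n)) 𝒢]
        (C : Circuit (Atom ar (Fin n)) 𝒢), C.Symmetric (Fin n) →
        Der C (clauses Φ (Fin n)) b ∅ → n.choose k ≤ 4 * (Fintype.card 𝒢) ^ 3) ∧
    (¬ HasInfiniteModel Φ → ∃ b N : ℕ, ∀ n, N ≤ n →
      Der (emptyCircuit (Atom ar (Fin n))) (clauses Φ (Fin n)) b ∅) := by
  constructor
  · rintro ⟨M, hM, I, hI⟩ b k n hk hn 𝒢 _ _ _ C hC hD
    have := gap_theorem (A := Fin n) Φ c hΦ har I hI C hC b k hk (by
      rw [Fintype.card_fin]; exact hn) hD
    rwa [Fintype.card_fin] at this
  · intro hno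
    by_contra hcon
    push Not at hcon
    exact hno ⟨ℕ, inferInstance, easy_side hΦ hcon⟩

end Pool.Agent.Results.MP_576eff_lc.SymmetricGap
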